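import Pool.Agent.Q226.ADA.SSE

/-!
# Small-set expansion is not hard under adaptive reductions of constant depth

The reductions considered here are randomised (the coins are a uniform element `ρ` of a finite type
`R`) and adaptive: the next query `query ρ l x`, a regular graph with the vertex set `V` and positive
degree, and the output `output ρ l x` after `k` queries depend on the coins, on the list `l` of the
answers given so far and on the input `x` of `N` bits. The degrees of the queries may vary.
`AdaptivelyReducesSSE` says that for every oracle which is right on all regular graphs on `V` in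
which some set of `s` vertices has expansion at most `ε`, or all sets of `s` vertices have expansion
at least `1 - η` (its other answers are arbitrary), and for every `x` the output is the parity of `x`
with probability at least `1 / 2 + γ`. Let `c = (1 - ε - η) s / |V|`.

(1) Reductions of arbitrary complexity: if every present edge can be destroyed by at most `t`
changes of one input bit, every equality of two queries on one path changes its truth value by at
most `t` such changes, and the output by at most `t` such changes, then
`2 γ N ≤ t (2 k / c + k (k - 1) / 2 + 1)`.

(2) Adaptive reductions of constant depth: let the adjacency matrices of the queries and the output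
be computed by circuits (one for each `ρ` and `l`, nonuniform) with NOT gates and AND and OR gates of
unbounded fan-in, of depth at most `h` and with at most `M` gates. If `N` is large, more precisely
`γ c N ≥ X₀ k ^ (h + 4)` for a number `X₀` which depends on `h` only, then
`M + k ≥ γ 2 ^ ((γ c N / k ^ 2) ^ (1 / (h + 2)) / 100)`.

So whatever the numbers `ε + η < 1` and `δ = s / |V|` are, the gap problem is not hard for `NP`, and
not even for parity, under adaptive randomised reductions in `AC^0` (Turing reductions) with
`N ^ o(1)` queries to graphs on one vertex set. Our hand-in `SensitiveReductions` treats nonadaptive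
reductions (all queries with one fixed degree), with more queries.

Proof. The queries are answered by a random oracle: independently for each graph the answer is `1` with
a probability which is a Lipschitz function of the graph, `1` and `0` on the two sides of the
promise. This oracle is always right. The law of the list of the answers can be computed, if one
takes into account that equal queries have equal answers. For two inputs which differ in one bit the
difference of the probabilities of the output `1` is at most the sum of the differences of the
conditional probabilities, each weighted with the smaller of the two probabilities of the history.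
Hence the differences can be summed over all inputs and all bits, and each destroyed edge is charged
to the history in which it is queried. Under a random restriction which leaves many variables free all
entries of all queries (for all `2 ^ k` lists of answers) and all equality tests become decision trees
of small depth, so that they have few sensitive free variables.
-/

set_option autoImplicit false

namespace Pool.Agent.Results.MP_8d8c46_lc.AdaptiveReductions

open Finset DomAC0 Pool.Agent.Q226.SEN Pool.Agent.Q226.ADA
open scoped Classical

/-- See above. The definitions of `RightSSE` and `AdaptivelyReducesSSE` are in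
`Pool/Agent/Q226/ADA/SSE.lean`, that of `run` in `Pool/Agent/Q226/ADA/Defs.lean`, those of `Regular`
and `cut` in `Pool/Agent/Q226/SEN/SSE.lean`, of `toggle` and `par` in
`Pool/Agent/Q226/SEN/Defs.lean`, and of circuits in `Pool/Agent/H568R2/Defs.lean`. -/
theorem result :
    -- (1) arbitrary complexity, few sensitive bits
    (∀ (N k s t : ℕ) (V R : Type) [Fintype V] [Fintype R] [Nonempty R] (ε η γ : ℝ)
      (query : R → List Bool → (Fin N → Bool) → SimpleGraph V)
      (output : R → List Bool → (Fin N → Bool) → Bool),
      0 < Fintype.card V → 1 ≤ s → 0 ≤ η → ε + η < 1 →
      (∀ ρ l x, l.length < k → ∃ d, 1 ≤ d ∧ Regular (query ρ l x) d) →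
      AdaptivelyReducesSSE s ε η k query output γ →
      (∀ ρ l x (v w : V), l.length < k → (query ρ l x).Adj v w →
        (univ.filter fun i => ¬ (query ρ l (toggle i x)).Adj v w).card ≤ t) →
      (∀ ρ l l' x, l.length < k → l' <:+ l → l' ≠ l →
        (univ.filter fun i => ¬ (query ρ l' x = query ρ l x ↔
          query ρ l' (toggle i x) = query ρ l (toggle i x))).card ≤ t) →
      (∀ ρ l x, l.length = k →
        (univ.filter fun i => output ρ l x ≠ output ρ l (toggle i x)).card ≤ t) →
      2 * γ * N ≤ t * (2 * (Fintype.card V / ((1 - ε - η) * s)) * k + k * (k - 1) / 2 + 1)) ∧
    -- (2) adaptive reductions of small depth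
    ∀ h : ℕ, ∃ X₀ : ℝ, ∀ (N k s M : ℕ) (V R : Type) [Fintype V] [Fintype R] [Nonempty R]
      (ε η γ : ℝ) (C : R → List Bool → Circuit (Fin N))
      (out : ∀ ρ l, V × V → Fin N ⊕ Fin (C ρ l).size) (fin : ∀ ρ l, Fin N ⊕ Fin (C ρ l).size)
      (query : R → List Bool → (Fin N → Bool) → SimpleGraph V),
      0 ≤ ε → 0 ≤ η → ε + η < 1 → 0 < γ → 1 ≤ k → 1 ≤ s → s ≤ Fintype.card V →
      (∀ ρ l, l.length ≤ k → (C ρ l).size ≤ M) →
      (∀ ρ l p, l.length < k → (C ρ l).nodeDepth (out ρ l p) ≤ h) →
      (∀ ρ l, l.length = k → (C ρ l).nodeDepth (fin ρ l) ≤ h) →
      (∀ ρ l x (p : V × V), l.length < k →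
        ((C ρ l).nodeVal x (out ρ l p) = true ↔ (query ρ l x).Adj p.1 p.2)) →
      (∀ ρ l x, l.length < k → ∃ d, 1 ≤ d ∧ Regular (query ρ l x) d) →
      AdaptivelyReducesSSE s ε η k query (fun ρ l x => (C ρ l).nodeVal x (fin ρ l)) γ →
      X₀ * (k : ℝ) ^ (h + 4) ≤ γ * ((1 - ε - η) * s / Fintype.card V) * N →
      γ * (2 : ℝ) ^ ((γ * ((1 - ε - η) * s / Fintype.card V) * N / (k : ℝ) ^ 2) ^
        (1 / (h + 2 : ℝ)) / 100) ≤ M + k := by
  refine ⟨?_, sse_final⟩
  intro N k s t V R _ _ _ ε η γ query output h1 h2 h3 h4 h5 h6 h7 h8 h9
  exact sse_few h1 h2 h3 h4 query output h5 h6 h7 h8 h9

end Pool.Agent.Results.MP_8d8c46_lc.AdaptiveReductions
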