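import Pool.Agent.Q128.SSL.Main

set_option autoImplicit false

/-!
# Local search for small-set expansion

Local search with auxiliary states and an arbitrary local potential. Every vertex carries a state
from a finite set; the states in `I` select the vertices of the set `S`. The potential is the sum
over all vertices of a real cost that is an arbitrary function of the radius-`r` view; an improving
move changes the states inside at most `m` balls of radius `t` and lowers the potential.

Let `q ≥ 2`, `0 < ε ≤ 1 / 2` and `d ≥ 64 / ε ^ 2`. For all large multiples `n` of `2 d q` there is a
connected `d`-regular graph with `n` vertices which consists of `q` clusters of `n / q` vertices with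
at most four boundary edges each, such that all such local searches with
`m (t + r + 1) ≤ log n / (8 log (d + 1))` fail: from every start which is invariant under a certain
automorphism (it permutes the clusters) a run of improving moves ends in a local optimum for which
the expansion of `S` is at least `1 - |S| / n - ε`; this is the trivial value, up to `ε`. The same
holds for improving moves inside one ball which do not change the size of `S`.

Proof. In a random lift of the complete bipartite graph all sets of vertices expand
(`Pool.Agent.Q128.SSL.Base`, from the moments of the number of elements of `A` that a random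
permutation maps into `B`). Take `q` copies of it and replace two edges of each copy, which are far
from each other, by edges between consecutive copies (`Pool.Agent.Q128.SSL.Cover`). The group
`ZMod q` acts on this graph, and it moves every vertex far, as is seen from potentials that change
slowly along the edges. So a local improvement can be repeated in all translates, and the run stays
invariant (`Pool.Agent.Q128.SSL.Run`, adapted from the starting result on 2-to-1 games). An invariant
set meets all copies in the same set.
-/

namespace Pool.Agent.Results.MP_8d8c46_lc.LocalSearch

open Pool.Agent.TH912.LS (LocalCost sel)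
open Pool.Agent.Q128.SSL

theorem result (q : ℕ) (hq : 2 ≤ q) (ε : ℝ) (hε : 0 < ε) (hε1 : ε ≤ 1 / 2) (d : ℕ)
    (hd : 64 / ε ^ 2 ≤ d) (M : ℕ) (hM : q * (d + 1) ^ 8 ≤ M) :
    ∃ (V : Type) (_ : Fintype V) (G : SimpleGraph V) (φ : G ≃g G) (C : ZMod q → Set V),
      Fintype.card V = 2 * d * q * M ∧ G.Connected ∧ (∀ v, (G.neighborSet v).ncard = d) ∧
      -- the clusters
      (∀ v, ∃! i, v ∈ C i) ∧ (∀ i v, φ v ∈ C (i + 1) ↔ v ∈ C i) ∧
      (∀ i, (C i).ncard = 2 * d * M ∧ cut G (C i) ≤ 4) ∧
      -- local search
      ∀ (S : Type) [Finite S] (I : Set S) (r m t : ℕ) (F : LocalCost S r) (start : V → S),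
        (m * (t + r + 1) : ℝ) ≤ Real.log (Fintype.card V) / (8 * Real.log (d + 1)) →
        (∀ v, start (φ v) = start v) →
        (∃ σ : V → S, Relation.ReflTransGen (Step F m t G) start σ ∧
          (∀ σ', ¬ Step F m t G σ σ') ∧
          (1 - ((sel I σ).ncard : ℝ) / Fintype.card V - ε) * (d * (sel I σ).ncard) ≤
            cut G (sel I σ)) ∧
        -- moves which keep the number of selected vertices
        (m = 1 → ∃ σ : V → S, Relation.ReflTransGen (SizeStep F I t G) start σ ∧
          (∀ σ', ¬ SizeStep F I t G σ σ') ∧ (sel I σ).ncard = (sel I start).ncard ∧
          (1 - ((sel I σ).ncard : ℝ) / Fintype.card V - ε) * (d * (sel I σ).ncard) ≤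
            cut G (sel I σ)) :=
  main q hq ε hε hε1 d hd M hM

end Pool.Agent.Results.MP_8d8c46_lc.LocalSearch
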