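import Pool.Agent.Q128.SSL.RandFinal

set_option autoImplicit false

/-!
# Randomised local algorithms for small-set expansion

In a randomised local algorithm of radius `r` every vertex has an independent random seed, and
whether it belongs to the output is an arbitrary function of its radius-`r` view of the graph and
the seeds. Let `q ≥ 2`, `0 < ε ≤ 1 / 2` and `d ≥ 64 / ε ^ 2`. For all large multiples `n` of `2 d q`
there is a connected `d`-regular graph with `n` vertices which consists of `q` clusters of `n / q`
vertices with at most four boundary edges each, such that every such algorithm fails: except with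
probability at most `16 q ^ 2 (d + 1) ^ (2 r) / (ε ^ 2 n)`, the expansion of its output `S` is at
least `1 - |S| / n - ε`, the trivial value up to `ε`. This probability is small up to radius
`(1 / 2 - o(1)) log n / log (d + 1)`.

More generally this holds for all random sets `S` of vertices whose marginals are invariant under an
automorphism that permutes the clusters, with the sum of the absolute values of all covariances,
multiplied by `16 q ^ 2 / (ε ^ 2 n ^ 2)`, as the bound for the probability. So correlations between
most pairs of vertices are needed.

Proof. The graph consists of `q` copies of a random lift of the complete bipartite graph, in which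
all sets expand; two edges of each copy are replaced by edges between consecutive copies. A set
without expansion meets the clusters in parts of different sizes
(`Pool.Agent.Q128.SSL.expand_of_dev`). The expectations of these sizes are equal, and their variances
are sums of covariances.
-/

namespace Pool.Agent.Results.MP_8d8c46_lc.RandomizedLocalAlgorithms

open Pool.Agent.Q128.SSL

open Classical in
theorem result (q : ℕ) (hq : 2 ≤ q) (ε : ℝ) (hε : 0 < ε) (hε1 : ε ≤ 1 / 2) (d : ℕ)
    (hd : 64 / ε ^ 2 ≤ d) (M : ℕ) (hM : d + 1 ≤ M) :
    ∃ (V : Type) (_ : Fintype V) (G : SimpleGraph V) (φ : G ≃g G) (C : ZMod q → Set V),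
      Fintype.card V = 2 * d * q * M ∧ G.Connected ∧ (∀ v, (G.neighborSet v).ncard = d) ∧
      -- the clusters
      (∀ v, ∃! i, v ∈ C i) ∧ (∀ i v, φ v ∈ C (i + 1) ↔ v ∈ C i) ∧
      (∀ i, (C i).ncard = 2 * d * M ∧ cut G (C i) ≤ 4) ∧
      -- random sets with small covariances
      (∀ (Ω : Type) [Fintype Ω] (w : Ω → ℝ) (S : Ω → Set V), IsDistribution w →
        (∀ v, pr w (fun ω => φ v ∈ S ω) = pr w (fun ω => v ∈ S ω)) →
        pr w (fun ω => (cut G (S ω) : ℝ) <
          (1 - ((S ω).ncard : ℝ) / Fintype.card V - ε) * (d * (S ω).ncard)) ≤
          16 * q ^ 2 / (ε ^ 2 * (Fintype.card V : ℝ) ^ 2) * ∑ u, ∑ v, |corr w S u v|) ∧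
      -- randomised local algorithms
      ∀ (A : Type) [Fintype A] (p : A → ℝ) (r : ℕ) (R : LocalRule A r), IsDistribution p →
        pr (seeds p) (fun ω => (cut G {v | R.out G ω v} : ℝ) <
          (1 - ({v | R.out G ω v}.ncard : ℝ) / Fintype.card V - ε) *
            (d * {v | R.out G ω v}.ncard)) ≤
          16 * q ^ 2 * (d + 1) ^ (2 * r) / (ε ^ 2 * Fintype.card V) :=
  rand_final q hq ε hε hε1 d hd M hM

end Pool.Agent.Results.MP_8d8c46_lc.RandomizedLocalAlgorithms
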