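import Pool.Agent.Q226.SEN.SSEAc0

/-!
# Small-set expansion under reductions of arbitrary complexity with unate bits or small formulas

The reductions considered here are randomised (the coins are a uniform element `ρ` of a finite type
`R`), they ask `k` queries nonadaptively, which are `d`-regular graphs with the vertex set `V`, and
evaluate the answers by an arbitrary function; many-one reductions are the case `k = 1`. `ReducesSSE`
says that for every oracle which is right on the `d`-regular graphs in which some set of `s` vertices
has expansion at most `ε`, or all sets of `s` vertices have expansion at least `1 - η` (its other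
answers are arbitrary), and for every input `x` of `N` bits the output is the parity of `x` with
probability at least `1 / 2 + γ`. Let `κ = γ (1 - ε - η) s / |V| ≥ 0`. Nothing is assumed in (1) to (4)
about the complexity of the reduction.

(1) On the average over the coins, the entries of the adjacency matrices have together at least
`2 κ N` times `d |V| 2 ^ N` sensitive pairs (an input at which the entry is `1` and a bit whose change
makes it `0`). For a many-one reduction (`γ = 1 / 2`) this means that flipping one bit removes at least
a fraction `(1 - ε - η) s / |V|` of the edges on the average.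

(2) If every edge which is present can be destroyed in at most `t` bits (entries with decision
trees of depth `t`, or DNFs of width `t`) then `k t ≥ 2 κ N`.

(3) If every entry of the adjacency matrices is a unate function of the input (for example monotone, or
a linear threshold function, of arbitrary complexity) then `|V| ≥ d exp (2 κ ^ 2 N / k ^ 2)`.

(4) If the entries are computed by formulas with AND and OR gates on literals then these formulas
have together at least `4 κ ^ 2 N ^ 2 d |V| / k` leaves, on the average over the coins.

(5) If the entries are computed by circuits with NOT, AND and OR gates of unbounded fan-in, of depth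
at most `h` and size at most `M`, then `(k / κ) M ≥ 2 ^ ((κ N / k) ^ (1 / (h + 1)) / 100)`, if
`κ N / k` is large. The starting result `ConstantDepthReductions` is the case of deterministic
many-one reductions.

(6) All this is due to the gap: for `N ≥ 3` there is a map from the inputs to 2-regular graphs with
`2 N` vertices, all entries of whose adjacency matrices are literals or constants, such that some set
of `N` vertices has expansion `0` if and only if the parity is even.

So for no `η < 1 / 2` and no `δ = s / |V|` is the problem `SSE(η, δ)` `NP`-hard (not even hard for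
parity) under polynomial size reductions (with fixed degree and number of vertices for each input
length) of unbounded complexity with unate entries, with few sensitive bits, or with formulas of size
`o (N ^ 2)` per edge, or under randomised nonadaptive reductions in `AC0` with `N ^ (1 - c)` queries.

Proof: answer the queries by the oracle which tells whether some set of `s` vertices contains at least
`θ` edges, for a random threshold `θ`; if one bit is flipped, some answer changes for all `θ`, so many
edges disappear. Then the sensitivity is estimated. The general theorems on gap problems are those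
of our hand-ins `MP_325f1f_lc.SensitiveReductions` and `MP_62e2f2_lc.ConstantDepthReductions`.
-/

set_option autoImplicit false

namespace Pool.Agent.Results.MP_8d8c46_lc.SensitiveReductions

open Finset DomAC0 Pool.Agent.Q226.SEN
open scoped Classical

/-- See above. The definitions (`ReducesSSE`, `Regular`, `adj`, `cut`) are in
`Pool/Agent/Q226/SEN/SSE.lean`, those of `sens`, `toggle`, `Unate`, `Fml`, `par` in
`Pool/Agent/Q226/SEN/Defs.lean`. -/
theorem result :
    -- (1) to (4)
    (∀ (N k d s : ℕ) (V R : Type) [Fintype V] [Fintype R] [Nonempty R] (ε η γ κ : ℝ)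
      (query : R → Fin k → (Fin N → Bool) → SimpleGraph V) (eval : R → (Fin k → Bool) → Bool),
      1 ≤ d → 0 < Fintype.card V → 0 ≤ η → ε + η ≤ 1 → 0 ≤ γ →
      (∀ ρ j x, Regular (query ρ j x) d) → ReducesSSE d s ε η query eval γ →
      κ = γ * ((1 - ε - η) * (s / Fintype.card V)) →
      2 * κ * N * ((d * Fintype.card V : ℕ) * 2 ^ N * Fintype.card R) ≤
        ∑ ρ, ∑ j, ∑ p : V × V, (sens (fun x => adj (query ρ j x) p) : ℝ) ∧
      (∀ t : ℕ, (∀ ρ j x p, adj (query ρ j x) p = true →
        (univ.filter fun i => adj (query ρ j (toggle i x)) p = false).card ≤ t) →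
        2 * κ * N ≤ k * t) ∧
      ((∀ ρ j p, Unate fun x => adj (query ρ j x) p) →
        2 * κ ^ 2 * N ≤ k ^ 2 * Real.log (Fintype.card V / d)) ∧
      (∀ F : R → Fin k → V × V → Fml N, (∀ ρ j x p, (F ρ j p).val x = adj (query ρ j x) p) →
        4 * κ ^ 2 * N ^ 2 * (d * Fintype.card V : ℕ) * Fintype.card R ≤
          k * ∑ ρ, ∑ j, ∑ p : V × V, ((F ρ j p).leaves : ℝ))) ∧
    -- (5)
    (∀ h : ℕ, ∃ X0 : ℝ, ∀ (N k d s M : ℕ) (V R : Type) [Fintype V] [Fintype R]
      [Nonempty R] (ε η γ : ℝ) (C : R → Circuit (Fin N))
      (out : ∀ ρ, Fin k → V × V → Fin N ⊕ Fin (C ρ).size)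
      (query : R → Fin k → (Fin N → Bool) → SimpleGraph V) (eval : R → (Fin k → Bool) → Bool),
      0 ≤ η → ε + η < 1 → 0 < γ → 1 ≤ d → 1 ≤ s → 1 ≤ k → 0 < Fintype.card V →
      (∀ ρ, (C ρ).size ≤ M) → (∀ ρ j p, (C ρ).nodeDepth (out ρ j p) ≤ h) →
      (∀ ρ j x p, (C ρ).nodeVal x (out ρ j p) = adj (query ρ j x) p) →
      (∀ ρ j x, Regular (query ρ j x) d) → ReducesSSE d s ε η query eval γ →
      X0 ≤ γ * ((1 - ε - η) * (s / Fintype.card V)) * N / k →
      (2 : ℝ) ^ ((γ * ((1 - ε - η) * (s / Fintype.card V)) * N / k) ^ (1 / (h + 1 : ℝ)) / 100) ≤
        k / (γ * ((1 - ε - η) * (s / Fintype.card V))) * M) ∧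
    -- (6)
    ∀ n : ℕ, 2 ≤ n → ∃ (V : Type) (_ : Fintype V) (G : (Fin (n + 1) → Bool) → SimpleGraph V)
      (F : V × V → Fml (n + 1)),
      Fintype.card V = 2 * (n + 1) ∧ (∀ x, Regular (G x) 2) ∧
      (∀ x p, (F p).val x = adj (G x) p) ∧ (∀ p, (F p).leaves ≤ 1) ∧
      ∀ x, par x = false ↔ ∃ S : Finset V, S.card = n + 1 ∧ cut (G x) S = 0 := by
  refine ⟨?_, sse_ac0, sse_no_gap⟩
  intro N k d s V R _ _ _ ε η γ κ query eval hd hV hη hεη hγ hreg hred hκ
  exact sse_main hd hη hεη hγ hV query eval hreg hred hκ

end Pool.Agent.Results.MP_8d8c46_lc.SensitiveReductions
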